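import Pool.Agent.R254.Reexp.Trig

/-! The functions `tan (t/2) ^ z` and the recursion for their sine and cosine coefficients. -/

set_option autoImplicit false

open MeasureTheory Set Filter Topology

namespace Pool.Agent.R254.Reexp

/-- `log tan (t/2)` -/
noncomputable def X (t : ℝ) : ℝ := Real.log (Real.tan (t / 2))

/-- `tan (t/2) ^ z` -/
noncomputable def w (z t : ℝ) : ℝ := Real.exp (z * X t)

theorem measurable_X : Measurable X := by
  unfold X
  have : Measurable fun t : ℝ => Real.tan (t / 2) := by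
    simp only [Real.tan_eq_sin_div_cos]
    fun_prop
  exact Real.measurable_log.comp this

theorem tan_pos {t : ℝ} (ht : t ∈ Ioo 0 Real.pi) : 0 < Real.tan (t / 2) :=
  Real.tan_pos_of_pos_of_lt_pi_div_two (by linarith [ht.1]) (by linarith [ht.2])

theorem exp_X {t : ℝ} (ht : t ∈ Ioo 0 Real.pi) : Real.exp (X t) = Real.tan (t / 2) :=
  Real.exp_log (tan_pos ht)

theorem left_inv_X {t : ℝ} (ht : t ∈ Ioo 0 Real.pi) : 2 * Real.arctan (Real.exp (X t)) = t := by
  rw [exp_X ht, Real.arctan_tan (by linarith [ht.1, Real.pi_pos]) (by linarith [ht.2])]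
  ring

theorem sincos_pos {t : ℝ} (ht : t ∈ Ioo 0 Real.pi) : 0 < Real.sin (t / 2) ∧ 0 < Real.cos (t / 2) := by
  constructor
  · exact Real.sin_pos_of_pos_of_lt_pi (by linarith [ht.1]) (by linarith [ht.2, Real.pi_pos])
  · exact Real.cos_pos_of_mem_Ioo ⟨by linarith [ht.1, Real.pi_pos], by linarith [ht.2]⟩

theorem sin_half (t : ℝ) : Real.sin t = 2 * Real.sin (t / 2) * Real.cos (t / 2) := by
  rw [← Real.sin_two_mul]; congr 1; ring

theorem sin_pos' {t : ℝ} (ht : t ∈ Ioo 0 Real.pi) : 0 < Real.sin t :=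
  Real.sin_pos_of_pos_of_lt_pi ht.1 ht.2

theorem exp_add_exp {t : ℝ} (ht : t ∈ Ioo 0 Real.pi) :
    Real.exp (X t) + Real.exp (-X t) = 2 / Real.sin t := by
  obtain ⟨hs, hc⟩ := sincos_pos ht
  rw [Real.exp_neg, exp_X ht, Real.tan_eq_sin_div_cos, sin_half t]
  have h1 := Real.sin_sq_add_cos_sq (t / 2)
  field_simp
  linarith

theorem exp_abs_le {t : ℝ} (ht : t ∈ Ioo 0 Real.pi) : Real.exp |X t| ≤ 2 / Real.sin t := by
  rw [← exp_add_exp ht]
  rcases abs_choice (X t) with h | h
  · rw [h]; linarith [Real.exp_pos (-X t)]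
  · rw [h]; linarith [Real.exp_pos (X t)]

theorem hasDerivAt_X {t : ℝ} (ht : t ∈ Ioo 0 Real.pi) : HasDerivAt X (1 / Real.sin t) t := by
  obtain ⟨hs, hc⟩ := sincos_pos ht
  have h0 : HasDerivAt (fun t : ℝ => t / 2) (1 / 2) t := (hasDerivAt_id t).div_const 2
  have h1 : HasDerivAt (fun t : ℝ => Real.tan (t / 2)) (1 / Real.cos (t / 2) ^ 2 * (1 / 2)) t := by
    have := (Real.hasDerivAt_tan hc.ne').comp t h0
    exact this
  have h2 : HasDerivAt X (1 / Real.cos (t / 2) ^ 2 * (1 / 2) / Real.tan (t / 2)) t :=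
    h1.log (tan_pos ht).ne'
  convert h2 using 1
  rw [Real.tan_eq_sin_div_cos, sin_half t]
  field_simp

theorem hasDerivAt_w (z : ℝ) {t : ℝ} (ht : t ∈ Ioo 0 Real.pi) :
    HasDerivAt (w z) (w z t * (z * (1 / Real.sin t))) t :=
  ((hasDerivAt_X ht).const_mul z).exp

theorem w_pos (z t : ℝ) : 0 < w z t := Real.exp_pos _

theorem w_mul (y z t : ℝ) : w y t * w z t = w (y + z) t := by
  rw [w, w, w, ← Real.exp_add, add_mul]

theorem measurable_w (z : ℝ) : Measurable (w z) :=
  Real.measurable_exp.comp (measurable_const.mul measurable_X)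

theorem inv_sin_le {t : ℝ} (ht : t ∈ Ioo 0 Real.pi) :
    2 / Real.sin t ≤ Real.pi / t + Real.pi / (Real.pi - t) := by
  have hpi := Real.pi_pos
  have ht0 := ht.1
  have ht1 : 0 < Real.pi - t := by linarith [ht.2]
  rcases le_total t (Real.pi / 2) with h | h
  · have h1 : 2 / Real.pi * t ≤ Real.sin t := Real.mul_le_sin ht0.le h
    have h2 : 2 / Real.sin t ≤ Real.pi / t := by
      rw [div_le_div_iff₀ (sin_pos' ht) ht0]
      have : 2 * t = Real.pi * (2 / Real.pi * t) := by field_simp
      rw [this]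
      exact mul_le_mul_of_nonneg_left h1 hpi.le
    have : 0 < Real.pi / (Real.pi - t) := by positivity
    linarith
  · have h1 : 2 / Real.pi * (Real.pi - t) ≤ Real.sin (Real.pi - t) :=
      Real.mul_le_sin ht1.le (by linarith)
    rw [Real.sin_pi_sub] at h1
    have h2 : 2 / Real.sin t ≤ Real.pi / (Real.pi - t) := by
      rw [div_le_div_iff₀ (sin_pos' ht) ht1]
      have : 2 * (Real.pi - t) = Real.pi * (2 / Real.pi * (Real.pi - t)) := by field_simp
      rw [this]
      exact mul_le_mul_of_nonneg_left h1 hpi.le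
    have : 0 < Real.pi / t := by positivity
    linarith

theorem w_le (z : ℝ) {t : ℝ} (ht : t ∈ Ioo 0 Real.pi) : w z t ≤ (2 / Real.sin t) ^ |z| := by
  have h1 : w z t ≤ Real.exp (|z| * |X t|) := by
    apply Real.exp_le_exp.2
    rw [← abs_mul]; exact le_abs_self _
  refine h1.trans ?_
  rw [mul_comm, Real.exp_mul]
  exact Real.rpow_le_rpow (Real.exp_pos _).le (exp_abs_le ht) (abs_nonneg _)

theorem integrable_w {z : ℝ} (hz : |z| < 1) : Integrable (w z) μ := by
  have hpi := Real.pi_pos
  set a := |z| with ha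
  have ha0 : 0 ≤ a := abs_nonneg _
  have h1 : IntervalIntegrable (fun t : ℝ => t ^ (-a)) volume 0 Real.pi :=
    intervalIntegral.intervalIntegrable_rpow' (by linarith)
  have h2 : IntervalIntegrable (fun t : ℝ => (Real.pi - t) ^ (-a)) volume 0 Real.pi := by
    have := (intervalIntegral.intervalIntegrable_rpow' (r := -a) (a := Real.pi) (b := 0)
      (by linarith)).comp_sub_left Real.pi
    simpa using this
  rw [intervalIntegrable_iff_integrableOn_Ioo_of_le hpi.le] at h1 h2
  have h3 : Integrable (fun t : ℝ => Real.pi ^ a * (t ^ (-a) + (Real.pi - t) ^ (-a))) μ :=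
    (h1.add h2).const_mul _
  refine h3.mono (measurable_w z).aestronglyMeasurable ?_
  filter_upwards [ae_mem] with t ht
  have ht0 := ht.1
  have ht1 : 0 < Real.pi - t := by linarith [ht.2]
  rw [Real.norm_eq_abs, abs_of_pos (w_pos _ _)]
  refine ((w_le z ht).trans ?_).trans (le_abs_self _)
  have h4 : (2 / Real.sin t) ^ a ≤ (Real.pi / t + Real.pi / (Real.pi - t)) ^ a :=
    Real.rpow_le_rpow (by have := sin_pos' ht; positivity) (inv_sin_le ht) ha0
  refine h4.trans ?_
  refine (Real.rpow_add_le_add_rpow (by positivity) (by positivity) ha0 hz.le).trans ?_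
  rw [Real.div_rpow hpi.le ht0.le, Real.div_rpow hpi.le ht1.le, Real.rpow_neg ht0.le,
    Real.rpow_neg ht1.le]
  apply le_of_eq
  ring

/-- limits at the end points -/
theorem tendsto_end {z : ℝ} (hz : |z| ≤ 1 / 2) {φ : ℝ → ℝ} {M : ℝ} (hφ : ∀ t, |φ t| ≤ M)
    {a : ℝ} {l : Filter ℝ} (hl : l ≤ 𝓝 a) (ha : Real.sin a = 0)
    (hmem : ∀ᶠ t in l, t ∈ Ioo 0 Real.pi) :
    Tendsto (fun t => Real.sin t * φ t * w z t) l (𝓝 0) := by
  have hsq : Tendsto (fun t => 2 * M * √(Real.sin t)) l (𝓝 0) := by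
    have : Continuous fun t => 2 * M * √(Real.sin t) := by fun_prop
    have h1 := (this.tendsto a).mono_left hl
    simpa [ha] using h1
  have hM : 0 ≤ M := (abs_nonneg _).trans (hφ 0)
  refine squeeze_zero_norm' ?_ hsq
  filter_upwards [hmem] with t ht
  have hs := sin_pos' ht
  have hw : √(Real.sin t) * w z t ≤ 2 := by
    rw [← pow_le_pow_iff_left₀ (mul_nonneg (Real.sqrt_nonneg _) (w_pos _ _).le) (by norm_num)
      two_ne_zero, mul_pow, Real.sq_sqrt hs.le, sq (w z t), w_mul]
    have h1 := w_le (z + z) ht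
    have h2 : (2 / Real.sin t) ^ |z + z| ≤ (2 / Real.sin t) ^ (1:ℝ) := by
      apply Real.rpow_le_rpow_of_exponent_le
      · rw [le_div_iff₀ hs]; linarith [Real.sin_le_one t]
      · rw [← two_mul, abs_mul, abs_two]; linarith
    rw [Real.rpow_one] at h2
    have h3 : Real.sin t * w (z + z) t ≤ Real.sin t * (2 / Real.sin t) :=
      mul_le_mul_of_nonneg_left (h1.trans h2) hs.le
    have h4 : Real.sin t * (2 / Real.sin t) = 2 := by field_simp
    linarith
  rw [Real.norm_eq_abs, abs_mul, abs_mul, abs_of_pos hs, abs_of_pos (w_pos z t)]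
  calc Real.sin t * |φ t| * w z t = |φ t| * (√(Real.sin t) * (√(Real.sin t) * w z t)) := by
        have := Real.mul_self_sqrt hs.le
        linear_combination (-(|φ t| * w z t)) * this
    _ ≤ M * (√(Real.sin t) * 2) := by
        apply mul_le_mul (hφ t) _ _ hM
        · exact mul_le_mul_of_nonneg_left hw (Real.sqrt_nonneg _)
        · have := w_pos z t; positivity
    _ = 2 * M * √(Real.sin t) := by ring

theorem integrable_mul_w {z : ℝ} (hz : |z| < 1) {φ : ℝ → ℝ} (hφc : Continuous φ) {M : ℝ}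
    (hφ : ∀ t, |φ t| ≤ M) : Integrable (fun t => φ t * w z t) μ :=
  (integrable_w hz).bdd_mul (c := M) hφc.aestronglyMeasurable (ae_of_all _ hφ)

/-- integration by parts -/
theorem recursion {z : ℝ} (hz : |z| ≤ 1 / 2) {φ φ' : ℝ → ℝ} {M M' : ℝ} (hφ : ∀ t, |φ t| ≤ M)
    (hφ' : ∀ t, |φ' t| ≤ M') (hd : ∀ t, HasDerivAt φ (φ' t) t) (hc : Continuous φ') :
    ∫ t, ((Real.cos t + z) * φ t + Real.sin t * φ' t) * w z t ∂μ = 0 := by
  have hpi := Real.pi_pos
  have hφc : Continuous φ := continuous_iff_continuousAt.2 fun t => (hd t).continuousAt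
  have hz1 : |z| < 1 := by linarith
  have hint : Integrable (fun t => ((Real.cos t + z) * φ t + Real.sin t * φ' t) * w z t) μ := by
    have hM : 0 ≤ M := (abs_nonneg _).trans (hφ 0)
    have hM' : 0 ≤ M' := (abs_nonneg _).trans (hφ' 0)
    refine integrable_mul_w hz1 (M := 2 * M + M') (by fun_prop) (fun t => ?_)
    refine (abs_add_le _ _).trans ?_
    rw [abs_mul, abs_mul]
    have h1 : |Real.cos t + z| ≤ 2 := by
      refine (abs_add_le _ _).trans ?_
      linarith [Real.abs_cos_le_one t]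
    exact add_le_add (mul_le_mul h1 (hφ t) (abs_nonneg _) (by norm_num))
      ((mul_le_mul (Real.abs_sin_le_one t) (hφ' t) (abs_nonneg _) (by norm_num)).trans
        (by rw [one_mul]))
  have hI : IntervalIntegrable (fun t => ((Real.cos t + z) * φ t + Real.sin t * φ' t) * w z t)
      volume 0 Real.pi := by
    rw [intervalIntegrable_iff_integrableOn_Ioo_of_le hpi.le]
    exact hint
  have hder : ∀ t ∈ Ioo 0 Real.pi, HasDerivAt (fun t => Real.sin t * φ t * w z t)
      (((Real.cos t + z) * φ t + Real.sin t * φ' t) * w z t) t := by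
    intro t ht
    have h1 : HasDerivAt (fun t => Real.sin t * φ t * w z t)
        ((Real.cos t * φ t + Real.sin t * φ' t) * w z t +
          Real.sin t * φ t * (w z t * (z * (1 / Real.sin t)))) t :=
      ((Real.hasDerivAt_sin t).mul (hd t)).mul (hasDerivAt_w z ht)
    convert h1 using 1
    have := (sin_pos' ht).ne'
    field_simp
    ring
  have hft := intervalIntegral.integral_eq_sub_of_hasDerivAt_of_tendsto hpi hder hI
    (fa := 0) (fb := 0)
    (tendsto_end hz hφ nhdsWithin_le_nhds Real.sin_zero (by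
      filter_upwards [Ioo_mem_nhdsGT hpi] with t ht using ht))
    (tendsto_end hz hφ nhdsWithin_le_nhds Real.sin_pi (by
      filter_upwards [Ioo_mem_nhdsLT hpi] with t ht using ht))
  rw [intervalIntegral.integral_of_le hpi.le, integral_Ioc_eq_integral_Ioo, sub_self] at hft
  exact hft

/-- sine coefficients -/
noncomputable def S (z : ℝ) (n : ℤ) : ℝ := ∫ t, Real.sin (n * t) * w z t ∂μ

/-- cosine coefficients -/
noncomputable def C (z : ℝ) (n : ℤ) : ℝ := ∫ t, Real.cos (n * t) * w z t ∂μ

theorem int_sin {z : ℝ} (hz : |z| < 1) (n : ℤ) : Integrable (fun t => Real.sin (n * t) * w z t) μ :=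
  integrable_mul_w hz (by fun_prop) (M := 1) fun t => Real.abs_sin_le_one _

theorem int_cos {z : ℝ} (hz : |z| < 1) (n : ℤ) : Integrable (fun t => Real.cos (n * t) * w z t) μ :=
  integrable_mul_w hz (by fun_prop) (M := 1) fun t => Real.abs_cos_le_one _

theorem rec_S {z : ℝ} (hz : |z| ≤ 1 / 2) (n : ℤ) :
    ((n:ℝ) + 1) * S z (n + 1) - (n - 1) * S z (n - 1) + 2 * z * S z n = 0 := by
  have hz1 : |z| < 1 := by linarith
  have h := recursion hz (φ := fun t => Real.sin (n * t)) (φ' := fun t => n * Real.cos (n * t))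
    (M := 1) (M' := |(n:ℝ)|) (fun t => Real.abs_sin_le_one _)
    (fun t => by
      rw [abs_mul]
      exact mul_le_of_le_one_right (abs_nonneg _) (Real.abs_cos_le_one _))
    (fun t => by
      have := (((hasDerivAt_id t).const_mul (n:ℝ))).sin
      simpa [mul_comm] using this)
    (by fun_prop)
  have e : ∀ t, ((Real.cos t + z) * Real.sin (n * t) + Real.sin t * (n * Real.cos (n * t))) * w z t =
      (1 / 2) * ((((n:ℝ) + 1) * (Real.sin ((n + 1 : ℤ) * t) * w z t) -
        (n - 1) * (Real.sin ((n - 1 : ℤ) * t) * w z t)) + 2 * z * (Real.sin (n * t) * w z t)) := by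
    intro t
    push_cast
    rw [add_mul (n:ℝ) 1 t, sub_mul (n:ℝ) 1 t, one_mul, Real.sin_add, Real.sin_sub]
    ring
  simp only [e] at h
  rw [integral_const_mul, integral_add, integral_sub, integral_const_mul, integral_const_mul,
    integral_const_mul] at h
  · have : (1 / 2 : ℝ) * (((n:ℝ) + 1) * S z (n + 1) - (n - 1) * S z (n - 1) + 2 * z * S z n) = 0 := h
    linarith
  · exact (int_sin hz1 _).const_mul _
  · exact (int_sin hz1 _).const_mul _
  · exact ((int_sin hz1 _).const_mul _).sub ((int_sin hz1 _).const_mul _)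
  · exact (int_sin hz1 _).const_mul _

theorem rec_C {z : ℝ} (hz : |z| ≤ 1 / 2) (n : ℤ) :
    ((n:ℝ) + 1) * C z (n + 1) - (n - 1) * C z (n - 1) + 2 * z * C z n = 0 := by
  have hz1 : |z| < 1 := by linarith
  have h := recursion hz (φ := fun t => Real.cos (n * t)) (φ' := fun t => -(n * Real.sin (n * t)))
    (M := 1) (M' := |(n:ℝ)|) (fun t => Real.abs_cos_le_one _)
    (fun t => by
      rw [abs_neg, abs_mul]
      exact mul_le_of_le_one_right (abs_nonneg _) (Real.abs_sin_le_one _))
    (fun t => by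
      have := (((hasDerivAt_id t).const_mul (n:ℝ))).cos
      simpa [mul_comm] using this)
    (by fun_prop)
  have e : ∀ t, ((Real.cos t + z) * Real.cos (n * t) + Real.sin t * (-(n * Real.sin (n * t)))) * w z t =
      (1 / 2) * ((((n:ℝ) + 1) * (Real.cos ((n + 1 : ℤ) * t) * w z t) -
        (n - 1) * (Real.cos ((n - 1 : ℤ) * t) * w z t)) + 2 * z * (Real.cos (n * t) * w z t)) := by
    intro t
    push_cast
    rw [add_mul (n:ℝ) 1 t, sub_mul (n:ℝ) 1 t, one_mul, Real.cos_add, Real.cos_sub]
    ring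
  simp only [e] at h
  rw [integral_const_mul, integral_add, integral_sub, integral_const_mul, integral_const_mul,
    integral_const_mul] at h
  · have : (1 / 2 : ℝ) * (((n:ℝ) + 1) * C z (n + 1) - (n - 1) * C z (n - 1) + 2 * z * C z n) = 0 := h
    linarith
  · exact (int_cos hz1 _).const_mul _
  · exact (int_cos hz1 _).const_mul _
  · exact ((int_cos hz1 _).const_mul _).sub ((int_cos hz1 _).const_mul _)
  · exact (int_cos hz1 _).const_mul _

/-- the cosine coefficients are proportional to the sine coefficients -/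
theorem prop_CS {z : ℝ} (hz : |z| ≤ 1 / 2) (n : ℕ) :
    C z (n + 1) * S z 1 = C z 1 * S z (n + 1) := by
  have key : ∀ n : ℕ, C z (n + 1) * S z 1 = C z 1 * S z (n + 1) ∧
      C z (n + 2) * S z 1 = C z 1 * S z (n + 2) := by
    intro n
    induction n with
    | zero =>
      refine ⟨by simp, ?_⟩
      have h1 := rec_S hz 1
      have h2 := rec_C hz 1
      norm_num at h1 h2 ⊢
      linear_combination (S z 1 * h2 - C z 1 * h1) / 2
    | succ n ih =>
      obtain ⟨i1, i2⟩ := ih
      have e1 : ((n + 1 : ℕ) : ℤ) + 1 = n + 2 := by push_cast; ring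
      have e2 : ((n + 1 : ℕ) : ℤ) + 2 = (n + 2 : ℤ) + 1 := by push_cast; ring
      rw [e1, e2]
      refine ⟨i2, ?_⟩
      have h1 := rec_S hz (n + 2)
      have h2 := rec_C hz (n + 2)
      have e3 : (n + 2 : ℤ) - 1 = n + 1 := by ring
      rw [e3] at h1 h2
      push_cast at h1 h2
      have hn : ((n:ℝ) + 2 + 1) ≠ 0 := by positivity
      apply mul_left_cancel₀ hn
      linear_combination S z 1 * h2 - C z 1 * h1 + (n + 2 - 1) * i1 - 2 * z * i2
  exact (key n).1

theorem S_one_pos {z : ℝ} (hz : |z| < 1) : 0 < S z 1 := by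
  have h1 := int_sin hz 1
  have hI : IntervalIntegrable (fun t => Real.sin ((1 : ℤ) * t) * w z t) volume 0 Real.pi := by
    rw [intervalIntegrable_iff_integrableOn_Ioo_of_le Real.pi_pos.le]
    exact h1
  have h2 := intervalIntegral.intervalIntegral_pos_of_pos_on hI (fun t ht => by
    have := sin_pos' ht
    simp only [Int.cast_one, one_mul]
    exact mul_pos this (w_pos z t)) Real.pi_pos
  rw [intervalIntegral.integral_of_le Real.pi_pos.le, integral_Ioc_eq_integral_Ioo] at h2
  exact h2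

theorem int_w_pos {z : ℝ} (hz : |z| < 1) : 0 < ∫ t, w z t ∂μ := by
  have h1 := integrable_w hz
  have hI : IntervalIntegrable (w z) volume 0 Real.pi := by
    rw [intervalIntegrable_iff_integrableOn_Ioo_of_le Real.pi_pos.le]
    exact h1
  have h2 := intervalIntegral.intervalIntegral_pos_of_pos_on hI (fun t ht => w_pos z t) Real.pi_pos
  rw [intervalIntegral.integral_of_le Real.pi_pos.le, integral_Ioc_eq_integral_Ioo] at h2
  exact h2

end Pool.Agent.R254.Reexp
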