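import Mathlib

/-! Abstract criterion: an isometry with one-dimensional defect whose adjoint has a total set of
eigenvectors not orthogonal to the defect vector is completely nonunitary. -/

set_option autoImplicit false

open Set Filter Topology

namespace Pool.Agent.R254.Reexp

variable {E : Type*} [NormedAddCommGroup E] [InnerProductSpace ℂ E] [CompleteSpace E]

/-- `K` reduces `T`: both `K` and its orthogonal complement are invariant. -/
def Reduces (T : E →L[ℂ] E) (K : Submodule ℂ E) : Prop :=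
  (∀ f ∈ K, T f ∈ K) ∧ ∀ f ∈ Kᗮ, T f ∈ Kᗮ

/-- `T` is completely nonunitary: no nonzero closed subspace reducing `T` exists on which `T`
acts unitarily (isometrically and onto). -/
def IsCompletelyNonunitary (T : E →L[ℂ] E) : Prop :=
  ∀ K : Submodule ℂ E, IsClosed (K : Set E) → Reduces T K →
    (∀ f ∈ K, ‖T f‖ = ‖f‖) → (∀ g ∈ K, ∃ f ∈ K, T f = g) → K = ⊥

/-- `T` preserves norms. -/
def IsNormPreserving (T : E →L[ℂ] E) : Prop := ∀ f, ‖T f‖ = ‖f‖

/-- The intersection of the ranges of all powers of `T` is `{0}`. -/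
def HasTrivialTail (T : E →L[ℂ] E) : Prop := ∀ f, (∀ n : ℕ, ∃ g, (T ^ n) g = f) → f = 0

/-- The vectors `T^n e` are pairwise orthogonal. -/
def OrbitOrthogonal (T : E →L[ℂ] E) (e : E) : Prop :=
  ∀ m n : ℕ, m ≠ n → inner ℂ ((T ^ m) e) ((T ^ n) e) = 0

/-- The closed linear span of the vectors `T^n e` is the whole space. -/
def OrbitComplete (T : E →L[ℂ] E) (e : E) : Prop :=
  (Submodule.span ℂ (range fun n : ℕ => (T ^ n) e)).topologicalClosure = ⊤

section

variable {b c : ℕ → E} {e : E} {P : E →L[ℂ] E}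
  (hb : ∀ f, (∀ n, inner ℂ (b n) f = 0) → f = 0)
  (hc : ∀ f, (∀ n, inner ℂ (c n) f = 0) → inner ℂ e f = 0 → f = 0)
  (hec : ∀ n, inner ℂ (c n) e = 0) (hP : ∀ f, ‖P f‖ = ‖f‖) (hPb : ∀ n, P (b n) = c n)

include hP in
theorem inner_map (f g : E) : inner ℂ (P f) (P g) = inner ℂ f g := by
  let P' : E →ₗᵢ[ℂ] E := ⟨P.toLinearMap, hP⟩
  exact P'.inner_map_map f g

include hb hPb in
theorem adj_eigen {w : E} {κ : ℂ} (hw : ∀ n, inner ℂ (c n) w = κ * inner ℂ (b n) w) :
    ContinuousLinearMap.adjoint P w = κ • w := by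
  rw [← sub_eq_zero]
  apply hb
  intro n
  rw [inner_sub_right, inner_smul_right, ContinuousLinearMap.adjoint_inner_right, hPb, hw n]
  ring

include hb hPb hec in
theorem adj_e : ContinuousLinearMap.adjoint P e = 0 := by
  have := adj_eigen (κ := 0) hb hPb (w := e) (fun n => by rw [hec n]; ring)
  simpa using this

include hP in
theorem adj_map (f : E) : ContinuousLinearMap.adjoint P (P f) = f := by
  apply ext_inner_left ℂ
  intro g
  rw [ContinuousLinearMap.adjoint_inner_right, inner_map hP]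

include hb hPb hec hP in
theorem norm_kappa_lt {w : E} {κ : ℂ} (hw : ∀ n, inner ℂ (c n) w = κ * inner ℂ (b n) w)
    (hew : inner ℂ e w ≠ 0) : ‖κ‖ < 1 := by
  have h1 := adj_eigen hb hPb hw
  set q := ContinuousLinearMap.adjoint P w with hq
  set u := w - P q with hu
  have hu0 : u ≠ 0 := by
    intro h
    apply hew
    have : w = P q := by rw [← sub_eq_zero]; exact h
    rw [this, ← ContinuousLinearMap.adjoint_inner_left, adj_e hb hec hPb, inner_zero_left]
  have horth : inner ℂ (P q) u = 0 := by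
    rw [hu, inner_sub_right, inner_map hP, ← ContinuousLinearMap.adjoint_inner_right, ← hq, sub_self]
  have hpyth : ‖w‖ ^ 2 = ‖P q‖ ^ 2 + ‖u‖ ^ 2 := by
    have : w = P q + u := by rw [hu]; abel
    conv_lhs => rw [this]
    have := norm_add_sq_eq_norm_sq_add_norm_sq_of_inner_eq_zero (P q) u horth
    simpa [sq] using this
  rw [hP, h1, norm_smul] at hpyth
  have hup : 0 < ‖u‖ := norm_pos_iff.2 hu0
  have hwp : 0 < ‖w‖ := by
    rw [norm_pos_iff]
    rintro rfl
    exact hew (inner_zero_right _)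
  by_contra hcon
  push Not at hcon
  have : ‖w‖ ^ 2 ≤ (‖κ‖ * ‖w‖) ^ 2 := by
    apply pow_le_pow_left₀ hwp.le
    nlinarith
  nlinarith [sq_nonneg ‖u‖, pow_pos hup 2]

include hb hPb hec hP in
/-- vectors in all ranges `P ^ n` are orthogonal to the eigenvectors of the adjoint -/
theorem inner_eq_zero_of_ranges {f : E} (hf : ∀ n : ℕ, ∃ g, (P ^ n) g = f) {w : E} {κ : ℂ}
    (hw : ∀ n, inner ℂ (c n) w = κ * inner ℂ (b n) w) (hew : inner ℂ e w ≠ 0) :
    inner ℂ w f = 0 := by
  have hκ := norm_kappa_lt hb hec hP hPb hw hew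
  have h1 := adj_eigen hb hPb hw
  have hnorm : ∀ n : ℕ, ∀ g, ‖(P ^ n) g‖ = ‖g‖ := by
    intro n
    induction n with
    | zero => intro g; simp
    | succ n ih => intro g; rw [pow_succ, mul_apply_eq_comp, ih, hP]
  have hin : ∀ n : ℕ, ∀ g, ‖inner ℂ w ((P ^ n) g)‖ = ‖κ‖ ^ n * ‖inner ℂ w g‖ := by
    intro n
    induction n with
    | zero => intro g; simp
    | succ n ih =>
      intro g
      rw [pow_succ, mul_apply_eq_comp, ih, ← ContinuousLinearMap.adjoint_inner_left, h1,
        inner_smul_left, norm_mul, RCLike.norm_conj, pow_succ]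
      ring
  have hle : ∀ n : ℕ, ‖inner ℂ w f‖ ≤ ‖κ‖ ^ n * (‖w‖ * ‖f‖) := by
    intro n
    obtain ⟨g, hg⟩ := hf n
    have h2 := hin n g
    rw [hg] at h2
    rw [h2]
    apply mul_le_mul_of_nonneg_left _ (by positivity)
    have h3 : ‖g‖ = ‖f‖ := by rw [← hg, hnorm]
    rw [← h3]
    exact norm_inner_le_norm w g
  have hlim : Tendsto (fun n : ℕ => ‖κ‖ ^ n * (‖w‖ * ‖f‖)) atTop (𝓝 (0 * (‖w‖ * ‖f‖))) :=
    (tendsto_pow_atTop_nhds_zero_of_lt_one (norm_nonneg _) hκ).mul_const _
  rw [zero_mul] at hlim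
  have := ge_of_tendsto' hlim hle
  exact norm_le_zero_iff.1 this

variable (W : Set E) (hW : ∀ w ∈ W, (∃ κ : ℂ, ∀ n, inner ℂ (c n) w = κ * inner ℂ (b n) w) ∧
    inner ℂ e w ≠ 0) (hWt : ∀ f, (∀ w ∈ W, inner ℂ w f = 0) → f = 0)

include hb hPb hec hP hW hWt in
theorem eq_zero_of_ranges {f : E} (hf : ∀ n : ℕ, ∃ g, (P ^ n) g = f) : f = 0 := by
  apply hWt
  intro w hw
  obtain ⟨⟨κ, hκ⟩, he⟩ := hW w hw
  exact inner_eq_zero_of_ranges hb hec hP hPb hf hκ he

include hb hPb hec hP hW hWt in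
theorem isCompletelyNonunitary : IsCompletelyNonunitary P := by
  intro K _ _ _ honto
  rw [Submodule.eq_bot_iff]
  intro f hf
  apply eq_zero_of_ranges hb hec hP hPb W hW hWt
  intro n
  have : ∀ n : ℕ, ∀ f ∈ K, ∃ g ∈ K, (P ^ n) g = f := by
    intro n
    induction n with
    | zero => intro f hf; exact ⟨f, hf, by simp⟩
    | succ n ih =>
      intro f hf
      obtain ⟨g, hg, hgf⟩ := ih f hf
      obtain ⟨g', hg', hgg⟩ := honto g hg
      exact ⟨g', hg', by rw [pow_succ, mul_apply_eq_comp, hgg, hgf]⟩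
  obtain ⟨g, -, hg⟩ := this n f hf
  exact ⟨g, hg⟩

include hb hc hPb hec hP hW hWt in
theorem dense_orbit : (Submodule.span ℂ (range fun n : ℕ => (P ^ n) e)).topologicalClosure = ⊤ := by
  rw [Submodule.topologicalClosure_eq_top_iff, Submodule.eq_bot_iff]
  intro f hf
  have hfe : ∀ n : ℕ, inner ℂ ((P ^ n) e) f = 0 := by
    intro n
    exact (Submodule.mem_orthogonal _ f).1 hf _ (Submodule.subset_span ⟨n, rfl⟩)
  apply eq_zero_of_ranges hb hec hP hPb W hW hWt
  have hinner : ∀ n : ℕ, ∀ x y, inner ℂ ((P ^ n) x) ((P ^ n) y) = inner ℂ x y := by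
    intro n
    induction n with
    | zero => intro x y; simp
    | succ n ih => intro x y; rw [pow_succ, mul_apply_eq_comp,
        mul_apply_eq_comp, ih, inner_map hP]
  intro n
  induction n with
  | zero => exact ⟨f, by simp⟩
  | succ n ih =>
    obtain ⟨g, hg⟩ := ih
    have heg : inner ℂ e g = 0 := by
      rw [← hinner n, hg]; exact hfe n
    refine ⟨ContinuousLinearMap.adjoint P g, ?_⟩
    rw [pow_succ, mul_apply_eq_comp]
    have : P (ContinuousLinearMap.adjoint P g) = g := by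
      symm
      rw [← sub_eq_zero]
      apply hc
      · intro n
        rw [inner_sub_right, ← hPb n, inner_map hP, ← ContinuousLinearMap.adjoint_inner_right,
          sub_self]
      · rw [inner_sub_right, heg, ← ContinuousLinearMap.adjoint_inner_left, adj_e hb hec hPb,
          inner_zero_left, sub_self]
    rw [this, hg]

include hb hPb hec hP in
/-- the vectors `P ^ n e` are pairwise orthogonal -/
theorem orbit_orthogonal {m n : ℕ} (hmn : m ≠ n) : inner ℂ ((P ^ m) e) ((P ^ n) e) = 0 := by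
  have hinner : ∀ n : ℕ, ∀ x y, inner ℂ ((P ^ n) x) ((P ^ n) y) = inner ℂ x y := by
    intro n
    induction n with
    | zero => intro x y; simp
    | succ n ih => intro x y; rw [pow_succ, mul_apply_eq_comp,
        mul_apply_eq_comp, ih, inner_map hP]
  have key : ∀ m k : ℕ, inner ℂ ((P ^ m) e) ((P ^ (m + (k + 1))) e) = 0 := by
    intro m k
    rw [pow_add, mul_apply_eq_comp, hinner, pow_succ', mul_apply_eq_comp,
      ← ContinuousLinearMap.adjoint_inner_left, adj_e hb hec hPb, inner_zero_left]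
  rcases lt_or_gt_of_ne hmn with h | h
  · obtain ⟨k, rfl⟩ := Nat.exists_eq_add_of_lt h
    exact key m k
  · obtain ⟨k, rfl⟩ := Nat.exists_eq_add_of_lt h
    have hk := key n k
    rw [← add_assoc] at hk
    rw [← inner_conj_symm, hk, map_zero]

end

end Pool.Agent.R254.Reexp
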