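import Pool.Agent.R254.Reexp.Eig
import Pool.Agent.R254.Reexp.Wold

/-! The re-expansion operator from sines to cosines. -/

set_option autoImplicit false

open MeasureTheory Set Filter Topology

namespace Pool.Agent.R254.Reexp

/-- the complex Hilbert space `L²(0, π)` -/
abbrev H : Type := Lp ℂ 2 μ

theorem memLp_of_bdd {φ : ℝ → ℝ} (hφ : Continuous φ) {M : ℝ} (hM : ∀ t, |φ t| ≤ M) :
    MemLp (fun t => (φ t : ℂ)) 2 μ := by
  refine MemLp.of_bound (Complex.continuous_ofReal.comp hφ).aestronglyMeasurable M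
    (ae_of_all _ fun t => ?_)
  rw [Complex.norm_real]; exact hM t

theorem memLp_sin (n : ℕ) : MemLp (fun t : ℝ => ((√(2 / Real.pi) * Real.sin (n * t) : ℝ) : ℂ)) 2 μ :=
  memLp_of_bdd (by fun_prop) (M := √(2 / Real.pi)) fun t => by
    rw [abs_mul, abs_of_nonneg (Real.sqrt_nonneg _)]
    exact mul_le_of_le_one_right (Real.sqrt_nonneg _) (Real.abs_sin_le_one _)

theorem memLp_cos (n : ℕ) : MemLp (fun t : ℝ => ((√(2 / Real.pi) * Real.cos (n * t) : ℝ) : ℂ)) 2 μ :=
  memLp_of_bdd (by fun_prop) (M := √(2 / Real.pi)) fun t => by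
    rw [abs_mul, abs_of_nonneg (Real.sqrt_nonneg _)]
    exact mul_le_of_le_one_right (Real.sqrt_nonneg _) (Real.abs_cos_le_one _)

theorem memLp_one : MemLp (fun _ : ℝ => ((1 : ℝ) : ℂ)) 2 μ :=
  memLp_of_bdd continuous_const (M := 1) fun t => by simp

/-- `s_n(t) = √(2/π) sin(nt)` as a vector of `L²(0, π)` -/
noncomputable def sn (n : ℕ) : H := (memLp_sin n).toLp _

/-- `c_n(t) = √(2/π) cos(nt)` as a vector of `L²(0, π)` -/
noncomputable def cn (n : ℕ) : H := (memLp_cos n).toLp _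

/-- the constant function `1` as a vector of `L²(0, π)` -/
noncomputable def one : H := memLp_one.toLp _

/-- `P f = ∑_{n ≥ 1} ⟨f, s_n⟩ c_n` for all `f` -/
def IsReexpansion (P : H →L[ℂ] H) : Prop :=
  ∀ f : H, HasSum (fun n : ℕ => inner ℂ (sn (n + 1)) f • cn (n + 1)) (P f)

theorem inner_toLp {φ : ℝ → ℝ} (hφ : MemLp (fun t => (φ t : ℂ)) 2 μ) (f : H) :
    inner ℂ (hφ.toLp _) f = ∫ t, f t * (φ t : ℂ) ∂μ := by
  rw [L2.inner_def]
  refine integral_congr_ae ?_
  filter_upwards [hφ.coeFn_toLp] with t ht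
  rw [ht]
  simp [mul_comm]

theorem inner_toLp_toLp {φ ψ : ℝ → ℝ} (hφ : MemLp (fun t => (φ t : ℂ)) 2 μ)
    (hψ : MemLp (fun t => (ψ t : ℂ)) 2 μ) :
    inner ℂ (hφ.toLp _) (hψ.toLp _) = ((∫ t, ψ t * φ t ∂μ : ℝ) : ℂ) := by
  rw [inner_toLp, ← integral_complex_ofReal]
  refine integral_congr_ae ?_
  filter_upwards [hψ.coeFn_toLp] with t ht
  rw [ht]
  push_cast; rfl

theorem integrable_H (f : H) : Integrable f μ :=
  (Lp.memLp f).integrable one_le_two

theorem H_ext {f : H} (h : f =ᵐ[μ] (0 : ℝ → ℂ)) : f = 0 := by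
  rw [Lp.eq_zero_iff_ae_eq_zero]; exact h

theorem sn_total (f : H) (h : ∀ n : ℕ, inner ℂ (sn (n + 1)) f = 0) : f = 0 := by
  apply H_ext
  refine sin_complete (integrable_H f) fun n => ?_
  have h1 := h n
  rw [sn, inner_toLp] at h1
  have h2 : ∫ t, f t * ((√(2 / Real.pi) * Real.sin ((n + 1 : ℕ) * t) : ℝ) : ℂ) ∂μ =
      (√(2 / Real.pi) : ℂ) * ∫ t, f t * (Real.sin ((n + 1 : ℕ) * t) : ℂ) ∂μ := by
    rw [← integral_const_mul]
    refine integral_congr_ae (ae_of_all _ fun t => ?_)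
    simp only; push_cast; ring
  rw [h2] at h1
  refine (mul_eq_zero.1 h1).resolve_left ?_
  have : √(2 / Real.pi) ≠ 0 := (Real.sqrt_pos.2 (by have := Real.pi_pos; positivity)).ne'
  exact_mod_cast this

theorem cn_total (f : H) (h : ∀ n : ℕ, inner ℂ (cn (n + 1)) f = 0) (h1 : inner ℂ one f = 0) :
    f = 0 := by
  apply H_ext
  refine cos_complete (integrable_H f) fun n => ?_
  rcases n with _ | n
  · rw [one, inner_toLp] at h1
    refine Eq.trans (integral_congr_ae (ae_of_all _ fun t => ?_)) h1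
    simp
  have h1 := h n
  rw [cn, inner_toLp] at h1
  have h2 : ∫ t, f t * ((√(2 / Real.pi) * Real.cos ((n + 1 : ℕ) * t) : ℝ) : ℂ) ∂μ =
      (√(2 / Real.pi) : ℂ) * ∫ t, f t * (Real.cos ((n + 1 : ℕ) * t) : ℂ) ∂μ := by
    rw [← integral_const_mul]
    refine integral_congr_ae (ae_of_all _ fun t => ?_)
    simp only; push_cast; ring
  rw [h2] at h1
  refine (mul_eq_zero.1 h1).resolve_left ?_
  have : √(2 / Real.pi) ≠ 0 := (Real.sqrt_pos.2 (by have := Real.pi_pos; positivity)).ne'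
  exact_mod_cast this

theorem int_cos_zero {k : ℤ} (hk : k ≠ 0) : ∫ t, Real.cos (k * t) ∂μ = 0 := by
  have hk' : (k:ℝ) ≠ 0 := by exact_mod_cast hk
  rw [μ, ← integral_Ioc_eq_integral_Ioo, ← intervalIntegral.integral_of_le Real.pi_pos.le]
  have hd : ∀ t ∈ uIcc 0 Real.pi, HasDerivAt (fun t => Real.sin (k * t) / k) (Real.cos (k * t)) t := by
    intro t _
    have h1 : HasDerivAt (fun t : ℝ => (k:ℝ) * t) (k * 1) t := (hasDerivAt_id t).const_mul _
    have h2 : HasDerivAt (fun t : ℝ => Real.sin (k * t) / k) (Real.cos (k * t) * (k * 1) / k) t :=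
      h1.sin.div_const (k:ℝ)
    convert h2 using 1
    field_simp
  rw [intervalIntegral.integral_eq_sub_of_hasDerivAt hd
    (Continuous.intervalIntegrable (by fun_prop) _ _)]
  simp [Real.sin_int_mul_pi]

theorem int_one : ∫ _t, (1:ℝ) ∂μ = Real.pi := by
  rw [μ, ← integral_Ioc_eq_integral_Ioo, ← intervalIntegral.integral_of_le Real.pi_pos.le]
  simp

theorem integrable_of_cont {φ : ℝ → ℝ} (hφ : Continuous φ) : Integrable φ μ := by
  have : IntegrableOn φ (Icc 0 Real.pi) volume := hφ.integrableOn_Icc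
  exact this.mono_set Ioo_subset_Icc_self

theorem sn_orthonormal : Orthonormal ℂ (fun n : ℕ => sn (n + 1)) := by
  rw [orthonormal_iff_ite]
  intro m n
  rw [sn, sn, inner_toLp_toLp]
  have e : ∀ t : ℝ, √(2 / Real.pi) * Real.sin ((n + 1 : ℕ) * t) *
      (√(2 / Real.pi) * Real.sin ((m + 1 : ℕ) * t)) =
      (1 / Real.pi) * (Real.cos ((m - n : ℤ) * t) - Real.cos ((m + n + 2 : ℤ) * t)) := by
    intro t
    have h1 : √(2 / Real.pi) * √(2 / Real.pi) = 2 / Real.pi :=
      Real.mul_self_sqrt (by have := Real.pi_pos; positivity)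
    have h2 : Real.cos ((m - n : ℤ) * t) - Real.cos ((m + n + 2 : ℤ) * t) =
        2 * (Real.sin ((n + 1 : ℕ) * t) * Real.sin ((m + 1 : ℕ) * t)) := by
      have e1 : ((m - n : ℤ) : ℝ) * t = (m + 1 : ℕ) * t - (n + 1 : ℕ) * t := by push_cast; ring
      have e2 : ((m + n + 2 : ℤ) : ℝ) * t = (m + 1 : ℕ) * t + (n + 1 : ℕ) * t := by push_cast; ring
      rw [e1, e2, Real.cos_sub, Real.cos_add]
      ring
    rw [h2]
    linear_combination (Real.sin ((n + 1 : ℕ) * t) * Real.sin ((m + 1 : ℕ) * t)) * h1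
  simp only [e]
  rw [integral_const_mul, integral_sub (integrable_of_cont (by fun_prop))
    (integrable_of_cont (by fun_prop)), int_cos_zero (k := (m + n + 2 : ℤ)) (by positivity)]
  split_ifs with h
  · subst h
    have : ∫ t, Real.cos (((m:ℤ) - m : ℤ) * t) ∂μ = Real.pi := by
      simp only [sub_self, Int.cast_zero, zero_mul, Real.cos_zero]
      exact int_one
    rw [this, sub_zero, one_div, inv_mul_cancel₀ Real.pi_ne_zero, Complex.ofReal_one]
  · rw [int_cos_zero (by rw [sub_ne_zero]; exact_mod_cast h)]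
    simp

theorem cn_orthonormal : Orthonormal ℂ (fun n : ℕ => cn (n + 1)) := by
  rw [orthonormal_iff_ite]
  intro m n
  rw [cn, cn, inner_toLp_toLp]
  have e : ∀ t : ℝ, √(2 / Real.pi) * Real.cos ((n + 1 : ℕ) * t) *
      (√(2 / Real.pi) * Real.cos ((m + 1 : ℕ) * t)) =
      (1 / Real.pi) * (Real.cos ((m - n : ℤ) * t) + Real.cos ((m + n + 2 : ℤ) * t)) := by
    intro t
    have h1 : √(2 / Real.pi) * √(2 / Real.pi) = 2 / Real.pi :=
      Real.mul_self_sqrt (by have := Real.pi_pos; positivity)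
    have h2 : Real.cos ((m - n : ℤ) * t) + Real.cos ((m + n + 2 : ℤ) * t) =
        2 * (Real.cos ((n + 1 : ℕ) * t) * Real.cos ((m + 1 : ℕ) * t)) := by
      have e1 : ((m - n : ℤ) : ℝ) * t = (m + 1 : ℕ) * t - (n + 1 : ℕ) * t := by push_cast; ring
      have e2 : ((m + n + 2 : ℤ) : ℝ) * t = (m + 1 : ℕ) * t + (n + 1 : ℕ) * t := by push_cast; ring
      rw [e1, e2, Real.cos_sub, Real.cos_add]
      ring
    rw [h2]
    linear_combination (Real.cos ((n + 1 : ℕ) * t) * Real.cos ((m + 1 : ℕ) * t)) * h1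
  simp only [e]
  rw [integral_const_mul, integral_add (integrable_of_cont (by fun_prop))
    (integrable_of_cont (by fun_prop)), int_cos_zero (k := (m + n + 2 : ℤ)) (by positivity)]
  split_ifs with h
  · subst h
    have : ∫ t, Real.cos (((m:ℤ) - m : ℤ) * t) ∂μ = Real.pi := by
      simp only [sub_self, Int.cast_zero, zero_mul, Real.cos_zero]
      exact int_one
    rw [this, add_zero, one_div, inv_mul_cancel₀ Real.pi_ne_zero, Complex.ofReal_one]
  · rw [int_cos_zero (by rw [sub_ne_zero]; exact_mod_cast h)]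
    simp

theorem cn_one (n : ℕ) : inner ℂ (cn (n + 1)) one = 0 := by
  rw [cn, one, inner_toLp_toLp]
  have : ∫ t, 1 * (√(2 / Real.pi) * Real.cos ((n + 1 : ℕ) * t)) ∂μ = 0 := by
    have := int_cos_zero (k := (n + 1 : ℤ)) (by positivity)
    push_cast at this ⊢
    simp only [one_mul]
    rw [integral_const_mul, this, mul_zero]
  rw [this, Complex.ofReal_zero]

/-- the sine basis -/
noncomputable def basis : HilbertBasis ℕ ℂ H :=
  HilbertBasis.mkOfOrthogonalEqBot sn_orthonormal (by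
    rw [Submodule.eq_bot_iff]
    intro f hf
    apply sn_total
    intro n
    exact (Submodule.mem_orthogonal _ f).1 hf _ (Submodule.subset_span ⟨n, rfl⟩))

theorem basis_apply (n : ℕ) : basis n = sn (n + 1) := by
  simp [basis]

/-- the operator -/
noncomputable def P₀ : H →ₗᵢ[ℂ] H :=
  cn_orthonormal.orthogonalFamily.linearIsometry.comp basis.repr.toLinearIsometry

theorem P₀_hasSum (f : H) : HasSum (fun n : ℕ => inner ℂ (sn (n + 1)) f • cn (n + 1)) (P₀ f) := by
  have h := cn_orthonormal.orthogonalFamily.hasSum_linearIsometry (basis.repr f)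
  have e : ∀ n : ℕ, (basis.repr f) n = inner ℂ (sn (n + 1)) f := by
    intro n
    rw [HilbertBasis.repr_apply_apply, basis_apply]
  simp only [LinearIsometry.toSpanSingleton_apply, e] at h
  exact h

theorem P₀_sn (n : ℕ) : P₀ (sn (n + 1)) = cn (n + 1) := by
  have h := P₀_hasSum (sn (n + 1))
  have h2 : HasSum (fun m : ℕ => inner ℂ (sn (m + 1)) (sn (n + 1)) • cn (m + 1)) (cn (n + 1)) := by
    have h3 := orthonormal_iff_ite.1 sn_orthonormal
    have h4 := hasSum_single (f := fun m : ℕ => inner ℂ (sn (m + 1)) (sn (n + 1)) • cn (m + 1)) n (by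
      intro m hm
      have := h3 m n
      rw [if_neg hm] at this
      rw [this, zero_smul])
    have := h3 n n
    rw [if_pos rfl] at this
    rw [this, one_smul] at h4
    exact h4
  exact h.unique h2

/-- the eigenvectors -/
theorem memLp_w {z : ℝ} (hz : |z| < 1 / 2) : MemLp (fun t => (w z t : ℂ)) 2 μ := by
  have h1 : MemLp (w z) 2 μ := by
    rw [memLp_two_iff_integrable_sq (measurable_w z).aestronglyMeasurable]
    have : (fun t => w z t ^ 2) = w (z + z) := by
      funext t; rw [sq, w_mul]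
    rw [this]
    apply integrable_w
    rw [← two_mul, abs_mul, abs_two]; linarith
  exact h1.ofReal

/-- the set of eigenvectors of the adjoint -/
def W : Set H := {v | ∃ (z : ℝ) (hz : |z| < 1 / 2), v = (memLp_w hz).toLp _}

theorem W_prop : ∀ v ∈ W, (∃ κ : ℂ, ∀ n : ℕ, inner ℂ (cn (n + 1)) v = κ * inner ℂ (sn (n + 1)) v) ∧
    inner ℂ one v ≠ 0 := by
  rintro v ⟨z, hz, rfl⟩
  have hz1 : |z| < 1 := by linarith
  constructor
  · refine ⟨((C z 1 / S z 1 : ℝ) : ℂ), fun n => ?_⟩
    rw [cn, sn, inner_toLp_toLp, inner_toLp_toLp, ← Complex.ofReal_mul]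
    congr 1
    have e1 : ∫ t, w z t * (√(2 / Real.pi) * Real.cos ((n + 1 : ℕ) * t)) ∂μ =
        √(2 / Real.pi) * C z (n + 1) := by
      rw [C, ← integral_const_mul]
      refine integral_congr_ae (ae_of_all _ fun t => ?_)
      simp only; push_cast; ring
    have e2 : ∫ t, w z t * (√(2 / Real.pi) * Real.sin ((n + 1 : ℕ) * t)) ∂μ =
        √(2 / Real.pi) * S z (n + 1) := by
      rw [S, ← integral_const_mul]
      refine integral_congr_ae (ae_of_all _ fun t => ?_)
      simp only; push_cast; ring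
    rw [e1, e2]
    have h1 := prop_CS hz.le n
    have h2 := (S_one_pos hz1).ne'
    field_simp
    linear_combination h1
  · rw [one, inner_toLp_toLp]
    have h1 := int_w_pos hz1
    have : ∫ t, w z t * (1:ℝ) ∂μ = ∫ t, w z t ∂μ := by simp
    rw [this]
    exact_mod_cast h1.ne'

theorem W_total (f : H) (h : ∀ v ∈ W, inner ℂ v f = 0) : f = 0 := by
  apply H_ext
  refine ae_zero_of_expMoments_complex (integrable_H f) measurable_X
    (Y := fun s => 2 * Real.arctan (Real.exp s)) (by fun_prop) ?_ (ε := 1 / 2) (by norm_num) ?_ ?_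
  · filter_upwards [ae_mem] with t ht
    exact left_inv_X ht
  · intro z hz
    have hz' : |z| < 1 / 2 := abs_lt.2 ⟨hz.1, hz.2⟩
    have := (Lp.memLp f).integrable_mul (memLp_w hz')
    exact this
  · intro z hz
    have hz' : |z| < 1 / 2 := abs_lt.2 ⟨hz.1, hz.2⟩
    have := h _ ⟨z, hz', rfl⟩
    rw [inner_toLp] at this
    exact this

end Pool.Agent.R254.Reexp
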