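import Pool.Agent.R254.MgfUnique

/-! Completeness of sines and cosines on `(0, π)`. -/

set_option autoImplicit false

open MeasureTheory Set Filter Topology

namespace Pool.Agent.R254.Reexp

/-- Lebesgue measure on `(0, π)` -/
noncomputable def μ : Measure ℝ := volume.restrict (Ioo 0 Real.pi)

instance : IsFiniteMeasure μ := ⟨by
  rw [μ, Measure.restrict_apply_univ, Real.volume_Ioo]
  exact ENNReal.ofReal_lt_top⟩

theorem ae_mem : ∀ᵐ t ∂μ, t ∈ Ioo 0 Real.pi := by
  rw [μ]
  exact ae_restrict_mem measurableSet_Ioo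

theorem cos_pow_zero {g : ℝ → ℂ} (hg : Integrable g μ)
    (h : ∀ n : ℕ, ∫ t, g t * (Real.cos (n * t) : ℂ) ∂μ = 0) (k : ℕ) :
    ∀ n : ℤ, ∫ t, g t * ((Real.cos t ^ k * Real.cos (n * t) : ℝ) : ℂ) ∂μ = 0 := by
  have hint : ∀ φ : ℝ → ℝ, Continuous φ → (∀ t, |φ t| ≤ 1) →
      Integrable (fun t => g t * (φ t : ℂ)) μ := by
    intro φ hφ hb
    have h1 : Integrable (fun t => (φ t : ℂ) * g t) μ := by
      refine hg.bdd_mul (c := 1) ?_ ?_
      · exact (Complex.continuous_ofReal.comp hφ).aestronglyMeasurable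
      · exact ae_of_all _ fun t => by rw [Complex.norm_real]; exact hb t
    refine h1.congr (ae_of_all _ fun t => by simp only; ring)
  induction k with
  | zero =>
    intro n
    obtain ⟨m, hm⟩ := Int.eq_nat_or_neg n
    have h1 := h m
    refine Eq.trans (integral_congr_ae (ae_of_all _ fun t => ?_)) h1
    simp only [pow_zero, one_mul]
    congr 2
    rcases hm with rfl | rfl
    · simp
    · push_cast
      rw [neg_mul, Real.cos_neg]
  | succ k ih =>
    intro n
    have e1 : ∀ t : ℝ, Real.cos t ^ (k + 1) * Real.cos (n * t) =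
        (Real.cos t ^ k * Real.cos ((n + 1 : ℤ) * t) + Real.cos t ^ k * Real.cos ((n - 1 : ℤ) * t)) / 2 := by
      intro t
      push_cast
      rw [add_mul, sub_mul, one_mul, Real.cos_add, Real.cos_sub]
      ring
    have hb : ∀ m : ℤ, ∀ t, |Real.cos t ^ k * Real.cos (m * t)| ≤ 1 := by
      intro m t
      rw [abs_mul, abs_pow]
      exact mul_le_one₀ (pow_le_one₀ (abs_nonneg _) (Real.abs_cos_le_one t)) (abs_nonneg _)
        (Real.abs_cos_le_one _)
    have hi1 := hint (fun t => Real.cos t ^ k * Real.cos ((n + 1 : ℤ) * t)) (by fun_prop) (hb _)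
    have hi2 := hint (fun t => Real.cos t ^ k * Real.cos ((n - 1 : ℤ) * t)) (by fun_prop) (hb _)
    have : ∫ t, g t * ((Real.cos t ^ (k + 1) * Real.cos (n * t) : ℝ) : ℂ) ∂μ =
        ∫ t, (1 / 2 : ℂ) * (g t * ((Real.cos t ^ k * Real.cos ((n + 1 : ℤ) * t) : ℝ) : ℂ) +
          g t * ((Real.cos t ^ k * Real.cos ((n - 1 : ℤ) * t) : ℝ) : ℂ)) ∂μ := by
      refine integral_congr_ae (ae_of_all _ fun t => ?_)
      simp only
      rw [e1]
      push_cast
      ring
    rw [this, integral_const_mul, integral_add hi1 hi2, ih, ih]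
    simp

theorem cos_complete {g : ℝ → ℂ} (hg : Integrable g μ)
    (h : ∀ n : ℕ, ∫ t, g t * (Real.cos (n * t) : ℂ) ∂μ = 0) : g =ᵐ[μ] 0 := by
  have hpow : ∀ k : ℕ, ∫ t, g t * ((Real.cos t ^ k : ℝ) : ℂ) ∂μ = 0 := by
    intro k
    have := cos_pow_zero hg h k 0
    simpa using this
  have hbm : ∀ φ : ℝ → ℝ, Continuous φ → ∀ C, (∀ t, |φ t| ≤ C) →
      Integrable (fun t => g t * (φ t : ℂ)) μ := by
    intro φ hφ C hb
    have h1 : Integrable (fun t => (φ t : ℂ) * g t) μ := by
      refine hg.bdd_mul (c := C) ?_ ?_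
      · exact (Complex.continuous_ofReal.comp hφ).aestronglyMeasurable
      · exact ae_of_all _ fun t => by rw [Complex.norm_real]; exact hb t
    refine h1.congr (ae_of_all _ fun t => by simp only; ring)
  refine ae_zero_of_expMoments_complex hg Real.measurable_cos Real.measurable_arccos ?_
    (ε := 1) one_pos ?_ ?_
  · filter_upwards [ae_mem] with t ht
    exact Real.arccos_cos ht.1.le ht.2.le
  · intro z _
    refine hbm (fun t => Real.exp (z * Real.cos t)) (by fun_prop) (Real.exp |z|) (fun t => ?_)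
    rw [abs_of_pos (Real.exp_pos _)]
    apply Real.exp_le_exp.2
    calc z * Real.cos t ≤ |z * Real.cos t| := le_abs_self _
      _ = |z| * |Real.cos t| := abs_mul _ _
      _ ≤ |z| * 1 := mul_le_mul_of_nonneg_left (Real.abs_cos_le_one t) (abs_nonneg _)
      _ = |z| := mul_one _
  · intro z _
    have hF : ∀ k : ℕ, Integrable (fun t => g t * (((z * Real.cos t) ^ k / k.factorial : ℝ) : ℂ)) μ := by
      intro k
      refine hbm (fun t => (z * Real.cos t) ^ k / k.factorial) (by fun_prop)
        (|z| ^ k / k.factorial) (fun t => ?_)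
      rw [abs_div, abs_pow, abs_mul, Nat.abs_cast]
      apply div_le_div_of_nonneg_right _ (Nat.cast_nonneg _)
      apply pow_le_pow_left₀ (by positivity)
      calc |z| * |Real.cos t| ≤ |z| * 1 :=
            mul_le_mul_of_nonneg_left (Real.abs_cos_le_one t) (abs_nonneg _)
        _ = |z| := mul_one _
    have hsum : Summable fun k : ℕ =>
        ∫ t, ‖g t * (((z * Real.cos t) ^ k / k.factorial : ℝ) : ℂ)‖ ∂μ := by
      refine Summable.of_nonneg_of_le (fun k => integral_nonneg fun t => norm_nonneg _)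
        (fun k => ?_) ((Real.summable_pow_div_factorial |z|).mul_right (∫ t, ‖g t‖ ∂μ))
      rw [← integral_const_mul]
      refine integral_mono (hF k).norm (hg.norm.const_mul _) (fun t => ?_)
      simp only
      rw [norm_mul, mul_comm, Complex.norm_real]
      refine mul_le_mul_of_nonneg_right ?_ (norm_nonneg _)
      rw [Real.norm_eq_abs, abs_div, abs_pow, abs_mul, Nat.abs_cast]
      apply div_le_div_of_nonneg_right _ (Nat.cast_nonneg _)
      apply pow_le_pow_left₀ (by positivity)
      calc |z| * |Real.cos t| ≤ |z| * 1 :=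
            mul_le_mul_of_nonneg_left (Real.abs_cos_le_one t) (abs_nonneg _)
        _ = |z| := mul_one _
    have hs := hasSum_integral_of_summable_integral_norm hF hsum
    have hzero : ∀ k : ℕ, ∫ t, g t * (((z * Real.cos t) ^ k / k.factorial : ℝ) : ℂ) ∂μ = 0 := by
      intro k
      have : ∫ t, g t * (((z * Real.cos t) ^ k / k.factorial : ℝ) : ℂ) ∂μ =
          ∫ t, ((z ^ k / k.factorial : ℝ) : ℂ) * (g t * ((Real.cos t ^ k : ℝ) : ℂ)) ∂μ := by
        refine integral_congr_ae (ae_of_all _ fun t => ?_)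
        simp only
        push_cast
        ring
      rw [this, integral_const_mul, hpow, mul_zero]
    have h0 : ∫ t, (∑' k : ℕ, g t * (((z * Real.cos t) ^ k / k.factorial : ℝ) : ℂ)) ∂μ = 0 := by
      refine hs.unique ?_
      simp only [hzero]
      exact hasSum_zero
    refine Eq.trans (integral_congr_ae (ae_of_all _ fun t => ?_)) h0
    simp only
    rw [tsum_mul_left]
    congr 1
    rw [Real.exp_eq_exp_ℝ, NormedSpace.exp_eq_tsum_div]
    push_cast
    rfl

theorem sin_complete {g : ℝ → ℂ} (hg : Integrable g μ)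
    (h : ∀ n : ℕ, ∫ t, g t * (Real.sin ((n + 1 : ℕ) * t) : ℂ) ∂μ = 0) : g =ᵐ[μ] 0 := by
  have hbm : ∀ φ : ℝ → ℝ, Continuous φ → ∀ C, (∀ t, |φ t| ≤ C) →
      Integrable (fun t => g t * (φ t : ℂ)) μ := by
    intro φ hφ C hb
    have h1 : Integrable (fun t => (φ t : ℂ) * g t) μ := by
      refine hg.bdd_mul (c := C) ?_ ?_
      · exact (Complex.continuous_ofReal.comp hφ).aestronglyMeasurable
      · exact ae_of_all _ fun t => by rw [Complex.norm_real]; exact hb t
    refine h1.congr (ae_of_all _ fun t => by simp only; ring)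
  have hall : ∀ n : ℤ, ∫ t, g t * (Real.sin (n * t) : ℂ) ∂μ = 0 := by
    have hpos : ∀ n : ℕ, ∫ t, g t * (Real.sin (n * t) : ℂ) ∂μ = 0 := by
      intro n
      rcases n with _ | n
      · simp
      · exact h n
    intro n
    obtain ⟨m, rfl | rfl⟩ := Int.eq_nat_or_neg n
    · exact hpos _
    · have : ∫ t, g t * (Real.sin ((-(m : ℤ) : ℤ) * t) : ℂ) ∂μ =
          ∫ t, -(g t * (Real.sin (m * t) : ℂ)) ∂μ := by
        refine integral_congr_ae (ae_of_all _ fun t => ?_)
        simp only
        push_cast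
        rw [neg_mul, Complex.sin_neg]
        ring
      rw [this, integral_neg, hpos, neg_zero]
  have hG : (fun t => g t * (Real.sin t : ℂ)) =ᵐ[μ] 0 := by
    refine cos_complete (hbm _ Real.continuous_sin 1 (fun t => Real.abs_sin_le_one t)) ?_
    intro n
    have : ∫ t, g t * (Real.sin t : ℂ) * (Real.cos (n * t) : ℂ) ∂μ =
        ∫ t, (1 / 2 : ℂ) * (g t * (Real.sin ((n + 1 : ℤ) * t) : ℂ) -
          g t * (Real.sin ((n - 1 : ℤ) * t) : ℂ)) ∂μ := by
      refine integral_congr_ae (ae_of_all _ fun t => ?_)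
      simp only
      push_cast
      rw [add_mul, sub_mul, one_mul, Complex.sin_add, Complex.sin_sub]
      ring
    rw [this, integral_const_mul, integral_sub, hall, hall]
    · simp
    · exact hbm (fun t => Real.sin ((n + 1 : ℤ) * t)) (by fun_prop) 1 (fun t => Real.abs_sin_le_one _)
    · exact hbm (fun t => Real.sin ((n - 1 : ℤ) * t)) (by fun_prop) 1 (fun t => Real.abs_sin_le_one _)
  filter_upwards [hG, ae_mem] with t h1 h2
  have h3 : Real.sin t ≠ 0 := (Real.sin_pos_of_pos_of_lt_pi h2.1 h2.2).ne'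
  have h4 : (Real.sin t : ℂ) ≠ 0 := by exact_mod_cast h3
  exact (mul_eq_zero.1 h1).resolve_right h4

end Pool.Agent.R254.Reexp
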